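import Pool.Agent.Lib.MP_144d21_co.XU.Iface

/-!
# MP_144d21_co, project XU: T4 and T5 from the modules (helper51)
-/

set_option autoImplicit false

namespace Pool.Agent.Xu.H51

open Finset Polynomial

theorem t4 (hBL : BlockS) (hTC : T4coreS) (hPE : PertS) (hRK : RkneS) : T4S := by
  intro V _ _ G p0 a hind hgood
  obtain ⟨p, hp, hle⟩ := hPE V G univ p0
  have h1 : rk p G univ = ne G univ := by
    refine le_antisymm (hRK V G G univ univ p).1 ?_
    rw [← hind]; exact hle
  exact hBL V G (fun S => rk p G S = ne G S) a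
    (fun S S' hS h => (hRK V G G S S' p).2 hS (fun _ _ _ _ h => h) h)
    (fun S h2 hS hg => hTC V G S p a hp h2 hS hg) univ h1 hgood

theorem t5 (hBL : BlockS) (hTC : T5coreS) : T5S := by
  intro V _ _ G hgood
  exact hBL V G (fun _ => True) 4 (fun _ _ _ _ => trivial)
    (fun S h2 _ hg => hTC V G S h2 hg) univ trivial hgood

end Pool.Agent.Xu.H51
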