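import Pool.Agent.Lib.MP_144d21_co.XU.H51.Small
import Pool.Agent.Lib.MP_144d21_co.XU.H51.Fin

/-!
# MP_144d21_co, project XU: from colourings and rows in Mathlib terms to T4 and T5 (helper51)
-/

set_option autoImplicit false

namespace Pool.Agent.Xu.H51

open Finset Polynomial

variable {V : Type} [Fintype V] [DecidableEq V]

/-- the number of colourings is the product: the chromatic polynomial is the product -/
theorem chi_of_family (hcol : ColeqS) (G : SimpleGraph V) (r : ℕ → ℕ)
    (h : ∀ q : ℕ, ((Nat.card (G.Coloring (Fin q)) : ℕ) : ℤ) =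
      ∏ i ∈ range 4, ((q : ℤ) - i) ^ (r i)) :
    chi G univ = X ^ r 0 * (X - C 1) ^ r 1 * (X - C 2) ^ r 2 * (X - C 3) ^ r 3 := by
  symm
  apply IsChi.eq_chi
  intro q
  rw [← hcol V G q, h q]
  simp only [prod_range_succ, prod_range_zero, one_mul]
  simp only [eval_mul, eval_pow, eval_X, eval_sub, eval_C]
  push_cast
  simp

theorem no_cycle (G : SimpleGraph V) (h : ChordalOn G univ) :
    ¬ ∃ n, 4 ≤ n ∧ Nonempty (SimpleGraph.cycleGraph n ↪g G) := by
  rintro ⟨n, hn, ⟨f⟩⟩
  obtain ⟨i, hi⟩ := h n hn f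
  exact hi (mem_univ _)

theorem rk_of_li (p : V → Fin 3 → ℝ) (G : SimpleGraph V)
    (h : LinearIndependent ℝ (fun e : G.edgeSet => rowE p e.1)) : rk p G univ = ne G univ := by
  classical
  have h1 : ∀ e : Sym2 V, e ∈ edg G univ ↔ e ∈ G.edgeSet := by
    intro e
    induction e using Sym2.ind with
    | _ u v => rw [mem_edg, SimpleGraph.mem_edgeSet]; simp
  have h2 : LinearIndependent ℝ (fun e : edg G univ => rowE p e.1) := by
    let g : edg G univ → G.edgeSet := fun e => ⟨e.1, (h1 e.1).1 e.2⟩
    have hg : Function.Injective g := by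
      intro a b hab
      apply Subtype.ext
      exact congrArg (fun x : G.edgeSet => x.1) hab
    exact h.comp g hg
  unfold rk ne
  rw [rs_eq, finrank_span_eq_card h2, Fintype.card_coe]

end Pool.Agent.Xu.H51
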