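import Pool.Agent.Lib.MP_144d21_co.XU.Iface

/-!
# MP_144d21_co, project XU: modules T4CORE, COLEQ, RKRED (helper51)
-/

set_option autoImplicit false

namespace Pool.Agent.Xu.H51

open Finset Polynomial

theorem t4core (hCN : CorenumS) (hTA : ThmaS) : T4coreS := by
  intro V _ _ G S p a hp h2 hind hgood
  obtain ⟨r0, r1, a', b, ha, hchi⟩ := hgood
  obtain ⟨-, -, hcard, hne, hbet, -, -⟩ := hCN V G S r0 r1 a' b h2 hchi
  apply ((hTA V G S p hp h2).2 _).1
  rw [hind, hne, hbet, hcard, ← pow_add]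
  congr 1
  omega

theorem coleq : ColeqS := by
  intro V _ _ G q
  classical
  rw [← Fintype.card_coe, ← Nat.card_eq_fintype_card]
  refine Nat.card_congr ?_
  refine
    { toFun := fun C => ⟨fun v => (C v : ℕ), mem_cols.2 ⟨fun v _ => (C v).2,
        fun v hv => absurd (mem_univ v) hv, fun u _ v _ h e => C.valid h (Fin.ext e)⟩⟩
      invFun := fun c => SimpleGraph.Coloring.mk
        (fun v => ⟨c.1 v, (mem_cols.1 c.2).1 v (mem_univ v)⟩) (by
          intro u v h e
          exact (mem_cols.1 c.2).2.2 u (mem_univ u) v (mem_univ v) h (congrArg Fin.val e))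
      left_inv := fun C => by
        ext v
        rfl
      right_inv := fun c => by
        apply Subtype.ext
        funext v
        rfl }

/-- rows of edges -/
def rowE {V : Type} [DecidableEq V] (p : V → Fin 3 → ℝ) : Sym2 V → (V → Fin 3 → ℝ) :=
  Sym2.lift ⟨row p, fun u v => add_comm _ _⟩

theorem mem_edg {V : Type} [Fintype V] [DecidableEq V] {G : SimpleGraph V} {S : Finset V}
    {u v : V} : s(u, v) ∈ edg G S ↔ G.Adj u v ∧ u ∈ S ∧ v ∈ S := by
  classical
  unfold edg
  rw [mem_filter]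
  simp

theorem rs_eq {V : Type} [Fintype V] [DecidableEq V] (p : V → Fin 3 → ℝ) (G : SimpleGraph V)
    (S : Finset V) : rs p G S = Submodule.span ℝ (Set.range fun e : edg G S => rowE p e.1) := by
  unfold rs
  congr 1
  ext x
  constructor
  · rintro ⟨u, hu, v, hv, ha, rfl⟩
    exact ⟨⟨s(u, v), mem_edg.2 ⟨ha, hu, hv⟩⟩, rfl⟩
  · rintro ⟨⟨e, he⟩, rfl⟩
    induction e using Sym2.ind with
    | _ u v =>
      obtain ⟨ha, hu, hv⟩ := mem_edg.1 he
      exact ⟨u, hu, v, hv, ha, rfl⟩

theorem rkred : RkredS := by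
  intro V _ _ G S p hne
  classical
  have h1 : ¬ LinearIndependent ℝ (fun e : edg G S => rowE p e.1) := by
    intro hli
    apply hne
    unfold rk ne
    rw [rs_eq, finrank_span_eq_card hli, Fintype.card_coe]
  rw [linearIndependent_iff_notMem_span] at h1
  push Not at h1
  obtain ⟨⟨e, he⟩, hmem⟩ := h1
  induction e using Sym2.ind with
  | _ v w =>
    obtain ⟨ha, hv, hw⟩ := mem_edg.1 he
    refine ⟨v, hv, w, hw, ha, le_antisymm (rk_mono subset_rfl fun _ _ _ _ h => h.1) ?_⟩
    have h2 : rs p G S ≤ rs p (del G v w) S := by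
      have h3 : row p v w ∈ rs p (del G v w) S := by
        have h4 : rowE p s(v, w) = row p v w := rfl
        rw [← h4]
        refine (Submodule.span_le.2 ?_) hmem
        rintro _ ⟨⟨e', he'⟩, hne', rfl⟩
        induction e' using Sym2.ind with
        | _ a b =>
          obtain ⟨ha', h5, h6⟩ := mem_edg.1 he'
          refine Submodule.subset_span ⟨a, h5, b, h6, ⟨ha', ?_, ?_⟩, rfl⟩
          · rintro ⟨rfl, rfl⟩
            exact hne'.2 rfl
          · rintro ⟨rfl, rfl⟩
            exact hne'.2 (Subtype.ext Sym2.eq_swap)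
      unfold rs
      rw [Submodule.span_le]
      rintro _ ⟨a, h5, b, h6, h7, rfl⟩
      by_cases hc1 : a = v ∧ b = w
      · obtain ⟨rfl, rfl⟩ := hc1
        exact h3
      by_cases hc2 : a = w ∧ b = v
      · obtain ⟨rfl, rfl⟩ := hc2
        rw [row_comm]
        exact h3
      · exact Submodule.subset_span ⟨a, h5, b, h6, ⟨h7, hc1, hc2⟩, rfl⟩
    exact Submodule.finrank_mono h2

end Pool.Agent.Xu.H51
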