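import Pool.Agent.Lib.MP_144d21_co.XU.Iface

/-!
# MP_144d21_co, project XU: module STARR (helper51, backup)
-/

set_option autoImplicit false

namespace Pool.Agent.Xu.H51

open Finset Polynomial

theorem starr (hRK : RkneS) (hNE : NecntS) (h4 : St4S) (h5 : St5S) : StarrS := by
  intro V _ _ G S p hp v hv hd3 hd5 hind
  classical
  set N := nb G S v with hN
  set U := rs p G (S.erase v) with hU
  have hvN : v ∉ N := by
    rw [hN, mem_nb]; exact fun h => h.2.ne rfl
  have hfU : Module.finrank ℝ U = ne G (S.erase v) :=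
    (hRK V G G S (S.erase v) p).2 (erase_subset _ _) (fun _ _ _ _ h => h) hind
  have hne := (hNE V G S).2.1 v hv
  -- the row space of `G[S]`
  have hrs : rs p G S = U ⊔ Submodule.span ℝ {x | ∃ w ∈ N, x = row p v w} := by
    apply le_antisymm
    · unfold rs
      rw [Submodule.span_le]
      rintro _ ⟨a, ha, b, hb, hab, rfl⟩
      by_cases hav : a = v
      · refine Submodule.mem_sup_right (Submodule.subset_span ⟨b, ?_, by rw [hav]⟩)
        rw [hN, mem_nb, ← hav]; exact ⟨hb, hab⟩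
      by_cases hbv : b = v
      · refine Submodule.mem_sup_right (Submodule.subset_span ⟨a, ?_, by rw [hbv, row_comm]⟩)
        rw [hN, mem_nb, ← hbv]; exact ⟨ha, hab.symm⟩
      · exact Submodule.mem_sup_left (Submodule.subset_span
          ⟨a, mem_erase.2 ⟨hav, ha⟩, b, mem_erase.2 ⟨hbv, hb⟩, hab, rfl⟩)
    · refine sup_le (rs_mono (erase_subset _ _) fun _ _ _ _ h => h) ?_
      rw [Submodule.span_le]
      rintro _ ⟨w, hw, rfl⟩
      rw [hN, mem_nb] at hw
      exact Submodule.subset_span ⟨v, hv, w, hw.1, hw.2, rfl⟩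
  have hrk : Module.finrank ℝ (U ⊔ Submodule.span ℝ {x | ∃ w ∈ N, x = row p v w} :
      Submodule ℝ (V → Fin 3 → ℝ)) = Module.finrank ℝ U + N.card := by
    rw [← hrs, hfU, ← hne, ← hind]
    rfl
  have hcon : ∀ w ∈ N, U ⊔ Submodule.span ℝ {x | ∃ y ∈ N, x = row p w y} ≤
      rs p (con G v w) (S.erase v) := by
    intro w hw
    have hw' := hw
    rw [hN, mem_nb] at hw'
    have hwv : w ≠ v := fun h => hvN (h ▸ hw)
    refine sup_le (rs_mono subset_rfl fun a _ b _ h => ⟨h.ne, Or.inl h⟩) ?_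
    rw [Submodule.span_le]
    rintro _ ⟨y, hy, rfl⟩
    have hy' := hy
    rw [hN, mem_nb] at hy'
    by_cases hwy : w = y
    · rw [hwy, row_self]; exact Submodule.zero_mem _
    · exact Submodule.subset_span ⟨w, mem_erase.2 ⟨hwv, hw'.1⟩, y,
        mem_erase.2 ⟨fun h => hvN (h ▸ hy), hy'.1⟩, ⟨hwy, Or.inr (Or.inl ⟨rfl, hy'.2⟩)⟩, rfl⟩
  have hfin : ∀ w ∈ N, Module.finrank ℝ (U ⊔ Submodule.span ℝ {x | ∃ y ∈ N, x = row p w y} :
      Submodule ℝ (V → Fin 3 → ℝ)) ≤ rk p (con G v w) (S.erase v) :=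
    fun w hw => Submodule.finrank_mono (hcon w hw)
  have hrkG : rk p G S = Module.finrank ℝ U + N.card := by
    rw [← hrk, ← hrs]; rfl
  -- enumeration of the neighbours
  have henum : ∀ k, N.card = k → ∃ w : Fin k → V, Function.Injective w ∧ (∀ i, w i ∈ N) ∧
      ∀ x ∈ N, ∃ i, w i = x := by
    intro k hk
    let e := N.equivFinOfCardEq hk
    refine ⟨fun i => (e.symm i).1, fun i j hij => e.symm.injective (Subtype.ext hij),
      fun i => (e.symm i).2, fun x hx => ⟨e ⟨x, hx⟩, ?_⟩⟩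
    simp
  have hspan : ∀ (k : ℕ) (w : Fin k → V), (∀ i, w i ∈ N) → (∀ x ∈ N, ∃ i, w i = x) →
      ∀ u : V, Submodule.span ℝ (Set.range fun i => row p u (w i)) =
        Submodule.span ℝ {x | ∃ y ∈ N, x = row p u y} := by
    intro k w hw hsur u
    congr 1
    ext x
    constructor
    · rintro ⟨i, rfl⟩
      exact ⟨w i, hw i, rfl⟩
    · rintro ⟨y, hy, rfl⟩
      obtain ⟨i, rfl⟩ := hsur y hy
      exact ⟨i, rfl⟩
  have hcases : N.card = 3 ∨ N.card = 4 ∨ N.card = 5 := by omega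
  rcases hcases with hk | hk | hk
  · obtain ⟨w, hw⟩ : N.Nonempty := card_pos.1 (by omega)
    refine ⟨w, hw, ?_⟩
    have h1 : Module.finrank ℝ U ≤ rk p (con G v w) (S.erase v) :=
      (Submodule.finrank_mono le_sup_left).trans (hfin w hw)
    omega
  · obtain ⟨w, hinj, hw, hsur⟩ := henum 4 hk
    obtain ⟨i, j, hij, hnot⟩ := h4 V p hp U v w hinj (fun i h => hvN (h ▸ hw i)) (by
      rw [hspan 4 w hw hsur v, hrk, hk])
    refine ⟨w i, hw i, ?_⟩
    have h1 : U < U ⊔ Submodule.span ℝ {x | ∃ y ∈ N, x = row p (w i) y} := by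
      refine lt_of_le_of_ne le_sup_left fun h => hnot ?_
      rw [h]
      exact Submodule.mem_sup_right (Submodule.subset_span ⟨w j, hw j, rfl⟩)
    have h2 := Submodule.finrank_lt_finrank_of_lt h1
    have h3 := hfin (w i) (hw i)
    omega
  · obtain ⟨w, hinj, hw, hsur⟩ := henum 5 hk
    obtain ⟨i, hi⟩ := h5 V p hp U v w hinj (fun i h => hvN (h ▸ hw i)) (by
      rw [hspan 5 w hw hsur v, hrk, hk])
    refine ⟨w i, hw i, ?_⟩
    rw [hspan 5 w hw hsur (w i)] at hi
    have h3 := hfin (w i) (hw i)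
    omega

end Pool.Agent.Xu.H51
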