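import Pool.Agent.Lib.MP_144d21_co.XU.Iface

/-!
# MP_144d21_co, project XU: modules REDSTEP, INDSTEP, CUTSTEP (helper51)
-/

set_option autoImplicit false

namespace Pool.Agent.Xu.H51

open Finset Polynomial

theorem concl_pos {V : Type} [Fintype V] [DecidableEq V] {p : V → Fin 3 → ℝ}
    {G : SimpleGraph V} {S : Finset V} (h : Concl p G S) : 0 < bet G S := by
  by_contra hneg
  push Not at hneg
  have h1 : bet G S * 2 ^ (2 * S.card - 3) ≤ 0 :=
    mul_nonpos_of_nonpos_of_nonneg hneg (by positivity)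
  have h2 : (0 : ℤ) < 2 ^ rk p G S := by positivity
  have h3 := h.1
  omega

theorem redstep (h1 : BetdcS) : RedstepS := by
  intro V _ _ G S v w p h2 hv hw ha hrk hdel hcon
  have hb := h1 V G S v w hv hw ha
  have hcpos := concl_pos hcon
  have hd1 := hdel.1
  have key : (2 : ℤ) ^ rk p G S < bet G S * 2 ^ (2 * S.card - 3) := by
    rw [← hrk, hb, add_mul]
    have h3 : (0 : ℤ) < bet (con G v w) (S.erase v) * 2 ^ (2 * S.card - 3) := by positivity
    linarith
  exact ⟨key.le, fun h => absurd h key.ne⟩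

theorem indstep (hBD : BetdcS) (hNE : NecntS) (hRK : RkneS) (hCE : CheqS) : IndstepS := by
  intro V _ _ G S v w p hp h4 hv hw ha hind hrk hdel hcon
  have hb := hBD V G S v w hv hw ha
  obtain ⟨hne1, hne2⟩ := (hNE V G S).1 v hv w hw ha
  -- rank of the deletion
  have hrd : rk p (del G v w) S = ne (del G v w) S :=
    (hRK V G (del G v w) S S p).2 subset_rfl (fun u _ x _ h => h.1) hind
  have hrd' : rk p (del G v w) S + 1 = rk p G S := by omega
  have hcard : (S.erase v).card = S.card - 1 := card_erase_of_mem hv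
  have hd := hdel.1
  have hc := hcon.1
  have hE : 2 * S.card - 3 = (2 * (S.erase v).card - 3) + 2 := by omega
  -- 2 * 2^(rk G - 1) = 2^(rk G)
  have h2 : (2 : ℤ) ^ rk p G S = 2 ^ rk p (del G v w) S + 2 ^ rk p (del G v w) S := by
    rw [← hrd', pow_succ]; ring
  have h3 : (2 : ℤ) ^ rk p (del G v w) S ≤ 2 ^ rk p (con G v w) (S.erase v) * 4 := by
    have h5 : rk p (del G v w) S ≤ rk p (con G v w) (S.erase v) + 2 := by omega
    calc (2 : ℤ) ^ rk p (del G v w) S ≤ 2 ^ (rk p (con G v w) (S.erase v) + 2) :=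
          pow_le_pow_right₀ (by norm_num) h5
      _ = _ := by rw [pow_add]; norm_num
  have h6 : bet (con G v w) (S.erase v) * 2 ^ (2 * S.card - 3) =
      (bet (con G v w) (S.erase v) * 2 ^ (2 * (S.erase v).card - 3)) * 4 := by
    rw [hE, pow_add]; ring
  refine ⟨?_, fun heq => ?_⟩
  · rw [h2, hb, add_mul, h6]
    linarith
  · rw [h2, hb, add_mul, h6] at heq
    have e1 : (2 : ℤ) ^ rk p (del G v w) S = bet (del G v w) S * 2 ^ (2 * S.card - 3) := by
      linarith
    have e2 : (2 : ℤ) ^ rk p (con G v w) (S.erase v) =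
        bet (con G v w) (S.erase v) * 2 ^ (2 * (S.erase v).card - 3) := by
      linarith
    have e3 : (2 : ℤ) ^ rk p (del G v w) S = 2 ^ rk p (con G v w) (S.erase v) * 4 := by
      linarith
    have e4 : rk p (del G v w) S = rk p (con G v w) (S.erase v) + 2 := by
      have h7 : (2 : ℤ) ^ rk p (con G v w) (S.erase v) * 4 =
          2 ^ (rk p (con G v w) (S.erase v) + 2) := by rw [pow_add]; norm_num
      rw [h7] at e3
      exact (Int.pow_right_injective (le_refl 2)) e3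
    obtain ⟨hch1, -⟩ := hdel.2 e1
    obtain ⟨hch2, hne3⟩ := hcon.2 e2
    have hcom : (nb G S v ∩ nb G S w).card = 2 := by omega
    exact ⟨hCE V G S p hp v hv w hw ha hch1 hch2 hcom hind, hind⟩

theorem cutstep (hBC : BetcutS) (hRC : RkcutS) (hRK : RkneS) (hNE : NecntS) (hCH : ChgS) :
    CutstepS := by
  intro V _ _ G S1 S2 x y p hp h2c hK hxy hsep hn1 hn2 hc1 hc2
  have hb := hBC V G S1 S2 x y h2c hK hxy hsep hn1 hn2
  have hxK : x ∈ S1 ∩ S2 := by rw [hK]; simp
  have hyK : y ∈ S1 ∩ S2 := by rw [hK]; simp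
  rw [mem_inter] at hxK hyK
  have hadj : (add G x y).Adj x y := Or.inr ⟨hxy, Or.inl ⟨rfl, rfl⟩⟩
  have hsep' : Sep (add G x y) S1 S2 := by
    intro a ha ha' b hb hb' h
    rcases h with h | ⟨_, ⟨rfl, rfl⟩ | ⟨rfl, rfl⟩⟩
    · exact hsep a ha ha' b hb hb' h
    · exact ha' hxK.2
    · exact ha' hyK.2
  have hr := hRC V (add G x y) S1 S2 x y p (hp.two x y hxy) hadj hxK.1 hxK.2 hyK.1 hyK.2 hsep'
  have hmono : rk p G (S1 ∪ S2) ≤ rk p (add G x y) (S1 ∪ S2) :=
    rk_mono subset_rfl fun u _ v _ h => Or.inl h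
  have hcard : (S1 ∪ S2).card + 2 = S1.card + S2.card := by
    rw [← card_union_add_card_inter, hK, card_pair hxy]
  have hS1 : 3 ≤ S1.card := by
    have h1 : ({x, y} : Finset V) ⊂ S1 := by
      rw [← hK]
      refine ⟨inter_subset_left, fun h => hn1 fun a ha => (mem_inter.1 (h ha)).2⟩
    have := card_lt_card h1
    rw [card_pair hxy] at this
    omega
  have hS2 : 3 ≤ S2.card := by
    have h1 : ({x, y} : Finset V) ⊂ S2 := by
      rw [← hK]
      refine ⟨inter_subset_right, fun h => hn2 fun a ha => (mem_inter.1 (h ha)).1⟩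
    have := card_lt_card h1
    rw [card_pair hxy] at this
    omega
  have hb1 := concl_pos hc1
  have hb2 := concl_pos hc2
  set r := rk p G (S1 ∪ S2) with hrdef
  set r1 := rk p (add G x y) S1 with hr1def
  set r2 := rk p (add G x y) S2 with hr2def
  set b1 := bet (add G x y) S1
  set b2 := bet (add G x y) S2
  have hi1 := hc1.1
  have hi2 := hc2.1
  have h3 : (2 : ℤ) ^ r * 2 ≤ 2 ^ r1 * 2 ^ r2 := by
    rw [← pow_succ, ← pow_add]
    exact pow_le_pow_right₀ (by norm_num) (by omega)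
  have h4 : (2 : ℤ) ^ r1 * 2 ^ r2 ≤
      (b1 * 2 ^ (2 * S1.card - 3)) * (b2 * 2 ^ (2 * S2.card - 3)) :=
    mul_le_mul hi1 hi2 (by positivity) (by positivity)
  have h5 : (b1 * 2 ^ (2 * S1.card - 3)) * (b2 * 2 ^ (2 * S2.card - 3)) =
      (bet G (S1 ∪ S2) * 2 ^ (2 * (S1 ∪ S2).card - 3)) * 2 := by
    have h6 : (2 * S1.card - 3) + (2 * S2.card - 3) = (2 * (S1 ∪ S2).card - 3) + 1 := by omega
    rw [hb]
    calc _ = (b1 * b2) * 2 ^ ((2 * S1.card - 3) + (2 * S2.card - 3)) := by rw [pow_add]; ring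
      _ = _ := by rw [h6, pow_succ]; ring
  refine ⟨by linarith, fun heq => ?_⟩
  have e1 : (2 : ℤ) ^ r1 * 2 ^ r2 =
      (b1 * 2 ^ (2 * S1.card - 3)) * (b2 * 2 ^ (2 * S2.card - 3)) := by linarith
  have e2 : (2 : ℤ) ^ r * 2 = 2 ^ r1 * 2 ^ r2 := by linarith
  have e3 : r + 1 = r1 + r2 := by
    rw [← pow_succ, ← pow_add] at e2
    exact (Int.pow_right_injective (le_refl 2)) e2
  have p1 : (0 : ℤ) < 2 ^ r1 := by positivity
  have p2 : (0 : ℤ) < 2 ^ r2 := by positivity
  have e4 : (2 : ℤ) ^ r1 = b1 * 2 ^ (2 * S1.card - 3) := by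
    by_contra hne
    have h7 : (2 : ℤ) ^ r1 < b1 * 2 ^ (2 * S1.card - 3) := lt_of_le_of_ne hi1 hne
    have h8 : (2 : ℤ) ^ r1 * 2 ^ r2 <
        (b1 * 2 ^ (2 * S1.card - 3)) * (b2 * 2 ^ (2 * S2.card - 3)) :=
      mul_lt_mul h7 hi2 p2 (by positivity)
    exact absurd e1 h8.ne
  have e5 : (2 : ℤ) ^ r2 = b2 * 2 ^ (2 * S2.card - 3) := by
    rw [← e4] at e1
    exact mul_left_cancel₀ p1.ne' e1
  obtain ⟨hch1, hn1'⟩ := hc1.2 e4
  obtain ⟨hch2, hn2'⟩ := hc2.2 e5
  have hcnt := (hNE V (add G x y) (S1 ∪ S2)).2.2.2 S1 S2 x y rfl hK hadj hsep'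
  have hle := (hRK V G G (S1 ∪ S2) (S1 ∪ S2) p).1
  have hGxy : G.Adj x y := by
    by_contra hn
    have h9 := (hNE V G (S1 ∪ S2)).2.2.1 x (mem_union_left _ hxK.1) y (mem_union_left _ hyK.1)
      hxy hn
    omega
  have hadd : ∀ a b, (add G x y).Adj a b ↔ G.Adj a b := by
    intro a b
    constructor
    · rintro (h | ⟨_, ⟨rfl, rfl⟩ | ⟨rfl, rfl⟩⟩)
      · exact h
      · exact hGxy
      · exact hGxy.symm
    · exact fun h => Or.inl h
  have haddG : add G x y = G := by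
    ext a b
    exact hadd a b
  rw [haddG] at hch1 hch2 hcnt
  refine ⟨hCH V G S1 S2 hsep ?_ hch1 hch2, ?_⟩
  · rw [hK]
    intro a ha b hb hab
    rw [mem_insert, mem_singleton] at ha hb
    rcases ha with rfl | rfl <;> rcases hb with rfl | rfl
    · exact absurd rfl hab
    · exact hGxy
    · exact hGxy.symm
    · exact absurd rfl hab
  · rw [haddG] at hn1' hn2' hr1def hr2def
    omega

end Pool.Agent.Xu.H51
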