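import Pool.Agent.Lib.MP_144d21_co.XU.Iface

/-!
# MP_144d21_co, project XU: module THMA (helper51)
-/

set_option autoImplicit false

namespace Pool.Agent.Xu.H51

open Finset Polynomial

theorem thma (hB3 : Base3S) (hDI : DichS) (hCC : CutconnS) (hCS : CutstepS) (hD2 : Del2S)
    (hC2 : Con2S) (hRR : RkredS) (hRE : RedstepS) (hRL : RkltS) (hHA : HandS) (hDG : DeggeS)
    (hST : StarrS) (hIN : IndstepS) (hNE : NecntS) : ThmaS := by
  intro V _ _ G S p hp h2
  suffices H : ∀ n, ∀ (G : SimpleGraph V) (S : Finset V), S.card = n → TwoConn G S →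
      Concl p G S from H _ G S rfl h2
  clear h2 G S
  intro n
  induction n using Nat.strong_induction_on with
  | _ n ihn =>
    suffices H2 : ∀ m, ∀ (G : SimpleGraph V) (S : Finset V), S.card = n → ne G S = m →
        TwoConn G S → Concl p G S from fun G S hS h => H2 _ G S hS rfl h
    intro m
    induction m using Nat.strong_induction_on with
    | _ m ihm =>
      intro G S hS hm h2
      by_cases h3 : S.card ≤ 3
      · exact hB3 V G S p hp h2 h3
      push Not at h3
      rcases hDI V G S h3 h2 with h3c | ⟨x, y, S1, S2, hxy, hU, hI, hsep, hn1, hn2⟩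
      · -- both reductions are 2-connected and smaller
        have hdel : ∀ v ∈ S, ∀ w ∈ S, G.Adj v w → Concl p (del G v w) S := by
          intro v hv w hw ha
          have h5 := ((hNE V G S).1 v hv w hw ha).1
          exact ihm _ (by omega) (del G v w) S hS rfl (hD2 V G S v w h3c hv hw ha)
        have hcon : ∀ v ∈ S, ∀ w ∈ S, G.Adj v w → Concl p (con G v w) (S.erase v) := by
          intro v hv w hw ha
          refine ihn _ ?_ (con G v w) (S.erase v) rfl (hC2 V G S v w h3c hv hw ha)
          rw [card_erase_of_mem hv]
          omega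
        by_cases hind : rk p G S = ne G S
        · have hne : S.Nonempty := card_pos.1 (by omega)
          obtain ⟨v, hv, hdeg⟩ := hHA V G S (by rw [← hind]; exact hRL V G S p hne)
          have hdg := hDG V G S v h3c hv
          obtain ⟨w, hw, hrk⟩ := hST V G S p hp v hv hdg hdeg hind
          rw [mem_nb] at hw
          exact hIN V G S v w p hp (by omega) hv hw.1 hw.2 hind hrk (hdel v hv w hw.1 hw.2)
            (hcon v hv w hw.1 hw.2)
        · obtain ⟨v, hv, w, hw, ha, hr⟩ := hRR V G S p hind
          exact hRE V G S v w p (by omega) hv hw ha hr (hdel v hv w hw ha) (hcon v hv w hw ha)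
      · have hsub1 : S1 ⊆ S := by rw [← hU]; exact subset_union_left
        have hsub2 : S2 ⊆ S := by rw [← hU]; exact subset_union_right
        have hs1 : ¬ S1 ⊆ S2 := by
          intro h
          apply hn2
          rw [← hU, union_eq_right.2 h]
        have hs2 : ¬ S2 ⊆ S1 := by
          intro h
          apply hn1
          rw [← hU, union_eq_left.2 h]
        have hlt1 : S1.card < n := by
          rw [← hS]; exact card_lt_card ⟨hsub1, fun h => hn1 (subset_antisymm hsub1 h)⟩
        have hlt2 : S2.card < n := by
          rw [← hS]; exact card_lt_card ⟨hsub2, fun h => hn2 (subset_antisymm hsub2 h)⟩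
        rw [← hU] at h2
        have hsep' : Sep G S2 S1 := fun a ha ha' b hb hb' h => hsep b hb hb' a ha ha' h.symm
        have hc1 := hCC V G S1 S2 x y h2 hI hxy hsep
        have hc2 := hCC V G S2 S1 x y (by rwa [union_comm]) (by rwa [inter_comm]) hxy hsep'
        rw [← hU]
        exact hCS V G S1 S2 x y p hp h2 hI hxy hsep hs1 hs2
          (ihn _ hlt1 (add G x y) S1 rfl hc1) (ihn _ hlt2 (add G x y) S2 rfl hc2)

end Pool.Agent.Xu.H51
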