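import Pool.Agent.Lib.MP_144d21_co.XU.H09.Entall
import Pool.Agent.Lib.MP_144d21_co.XU.H16.Alpha
import Pool.Agent.Lib.MP_144d21_co.XU.H16.Fiber
import Pool.Agent.Lib.MP_144d21_co.XU.H16.Trisym
import Pool.Agent.Lib.MP_144d21_co.XU.H21.Chidc
import Pool.Agent.Lib.MP_144d21_co.XU.H21.Rkne
import Pool.Agent.Lib.MP_144d21_co.XU.H22.T5core
import Pool.Agent.Lib.MP_144d21_co.XU.H23.Num
import Pool.Agent.Lib.MP_144d21_co.XU.H28.Stepa
import Pool.Agent.Lib.MP_144d21_co.XU.H28.Submod
import Pool.Agent.Lib.MP_144d21_co.XU.H30.Chi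
import Pool.Agent.Lib.MP_144d21_co.XU.H30.K5dep
import Pool.Agent.Lib.MP_144d21_co.XU.H30.Lin5
import Pool.Agent.Lib.MP_144d21_co.XU.H30.St4
import Pool.Agent.Lib.MP_144d21_co.XU.H31.Pert
import Pool.Agent.Lib.MP_144d21_co.XU.H31.St5
import Pool.Agent.Lib.MP_144d21_co.XU.H32.Chigl
import Pool.Agent.Lib.MP_144d21_co.XU.H34.Con2
import Pool.Agent.Lib.MP_144d21_co.XU.H34.Corenum
import Pool.Agent.Lib.MP_144d21_co.XU.H34.Fact
import Pool.Agent.Lib.MP_144d21_co.XU.H38.Betcut
import Pool.Agent.Lib.MP_144d21_co.XU.H38.Cyccon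
import Pool.Agent.Lib.MP_144d21_co.XU.H43.Conn3
import Pool.Agent.Lib.MP_144d21_co.XU.H43.Dich
import Pool.Agent.Lib.MP_144d21_co.XU.H51.Fin
import Pool.Agent.Lib.MP_144d21_co.XU.H51.Small
import Pool.Agent.Lib.MP_144d21_co.XU.H51.Starr
import Pool.Agent.Lib.MP_144d21_co.XU.H51.Bridge
import Pool.Agent.Lib.MP_144d21_co.XU.H51.Steps
import Pool.Agent.Lib.MP_144d21_co.XU.H51.Thma
import Pool.Agent.Lib.MP_144d21_co.XU.H57.Coldc
import Pool.Agent.Lib.MP_144d21_co.XU.H57.Glue
import Pool.Agent.Lib.MP_144d21_co.XU.H57.Necnt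
import Pool.Agent.Lib.MP_144d21_co.XU.H72.Cheq
import Pool.Agent.Lib.MP_144d21_co.XU.H72.Rankt
import Pool.Agent.Lib.MP_144d21_co.XU.H74.Real3
import Pool.Agent.Lib.MP_144d21_co.XU.H78.Stepc
import Pool.Agent.Lib.MP_144d21_co.XU.H80.Base3
import Pool.Agent.Lib.MP_144d21_co.XU.H80.Block
import Pool.Agent.Lib.MP_144d21_co.XU.H87.Chg
import Pool.Agent.Lib.MP_144d21_co.XU.H87.K6R
import Pool.Agent.Lib.MP_144d21_co.XU.H88.StepB
import Pool.Agent.Lib.MP_144d21_co.XU.H93.Betdc
import Pool.Agent.Lib.MP_144d21_co.XU.H93.Hand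
import Pool.Agent.Lib.MP_144d21_co.XU.H94.COEF
import Pool.Agent.Lib.MP_144d21_co.XU.H95.Rkcut
import Pool.Agent.Lib.MP_144d21_co.XU.H95.Rklt

/-!
# MP_144d21_co, project XU: assembly (helper51)
-/

set_option autoImplicit false

namespace Pool.Agent.Xu.All

open Finset Polynomial

theorem coldc : ColdcS := H57.coldc
theorem glue : GlueS := H57.glue
theorem necnt : NecntS := H57.necnt
theorem chiEx : ChiS := H30.chi coldc necnt
theorem chidc : ChidcS := H21.chidc coldc chiEx
theorem chigl : ChiglS := H32.chigl glue chiEx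
theorem coef : CoefS := H94.coef chidc necnt
theorem tric : TricS := H94.tric chidc coef necnt
theorem alpha : AlphaS := H16.alpha necnt chidc
theorem betdc : BetdcS := H93.betdc chidc
theorem betcut : BetcutS := H38.betcut chiEx chidc chigl
theorem rkne : RkneS := H21.rkne
theorem k6r : K6rS := H87.k6r H30.k5dep
theorem cheq : CheqS := H72.cheq H38.cyccon k6r rkne
theorem st5 : St5S := H31.st5 H30.k5dep H30.lin5
theorem starr : StarrS := H51.starr rkne necnt (H30.st4 H30.k5dep) st5
theorem cutstep : CutstepS := H51.cutstep betcut H95.rkcut rkne necnt H87.chg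
theorem redstep : RedstepS := H51.redstep betdc
theorem indstep : IndstepS := H51.indstep betdc necnt rkne cheq
theorem thma : ThmaS := H51.thma H80.base3 H43.dich H43.cutconn cutstep H43.del2 H34.con2
  H21.rkred redstep H95.rklt H93.hand H43.degge starr indstep necnt
theorem pert : PertS := H31.pert
theorem corenum : CorenumS := H34.corenum H23.num coef tric alpha chiEx thma pert
theorem t4core : T4coreS := H51.t4core corenum thma
theorem block : BlockS := H80.block chigl coef H34.fact H87.chg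
theorem t4 : T4S := H51.t4 block t4core pert rkne
theorem stepb : StepbS := H88.stepb H74.real3
theorem entall : EntallS := H09.entall (H78.stepc H28.stepa stepb)
theorem entf : EntfS := H09.entf entall H16.trisym H16.fiber
theorem t5core : T5coreS := H22.t5core corenum t4core pert rkne H72.rankt entf
theorem t5 : T5S := H51.t5 block t5core

end Pool.Agent.Xu.All
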